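import Pool.Agent.V11234.Rpo

set_option autoImplicit false

/-!
# The existential theory of the recursive path ordering with a partial precedence is undecidable

Take a constant and three unary symbols `a`, `b`, `#` which are pairwise incomparable. The ground
terms are the words over `{a, b, #}`, the recursive path ordering is the proper subword relation
and `x ↦ a(x)` is multiplication by a letter from the left. Then `a^n` is the word of the letters
`a` of `x` iff it is in `a^*`, `a^n ≤ x` and `a(a^n) ≰ x`. With this one defines `u ↦ u #` and the
words `u # v`, and so the concatenation of words over `{a, b}`. The words that commute with
`a^n b` are its powers, which gives the multiplication of numbers.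
-/

namespace Pool.Agent.Results.MP_18cdfa_lc.PartialPrecedence

open Pool.Agent.V11234.RPO

/-- For the signature with one constant and three unary function symbols, the empty (partial)
precedence, in which all symbols are incomparable, and every status function, the existential
fragment of the first-order theory of the ground terms with the recursive path ordering is
undecidable. -/
theorem result :
    (∃ c, F3.ar c = 0) ∧ IsStrictOrder (Fin F3.n) (fun _ _ => False) ∧
    ∀ st : Fin F3.n → Status, ¬ ComputablePred (ExTheory (fun _ _ => False) st) :=
  ⟨⟨(0 : Fin 4), rfl⟩, { irrefl := fun _ h => h, trans := fun _ _ _ h _ => h },
    fun st => not_computable st⟩

end Pool.Agent.Results.MP_18cdfa_lc.PartialPrecedence
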